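import Pool.Agent.X19.CR.Stm

set_option autoImplicit false

open MeasureTheory Metric Set Filter Topology
open scoped ENNReal ContDiff

namespace Pool.Agent.X224.CR

open Pool.Agent.X19.CR

theorem cond_iff (hS : S_SCALE) {N : ℕ} {p : ℝ} (hp : 1 < p) (b : Bool) (γ : ℝ) (x₀ : E N) {r : ℝ}
    (hr : 0 < r) (Ω : Set (E N)) :
    cap p (closedBall x₀ r \ Ω) (dom b x₀ r) ≤ ENNReal.ofReal γ * cap p (closedBall x₀ r) (dom b x₀ r) ↔
    cap p (closedBall (0 : E N) 1 \ {x | x₀ + r • x ∈ Ω}) (dom b 0 1) ≤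
      ENNReal.ofReal γ * cap p (closedBall (0 : E N) 1) (dom b 0 1) := by
  have h1 := hS N p hp b x₀ r hr Ω
  have h2 := hS N p hp b x₀ r hr ∅
  have e : {x : E N | x₀ + r • x ∈ (∅ : Set (E N))} = ∅ := by
    ext x
    simp
  rw [e, diff_empty, diff_empty] at h2
  rw [h1, h2, mul_left_comm]
  have ha : ENNReal.ofReal (r ^ ((N : ℝ) - p)) ≠ 0 := by
    rw [ne_eq, ENNReal.ofReal_eq_zero, not_le]
    exact Real.rpow_pos_of_pos hr _
  exact ENNReal.mul_le_mul_iff_right ha ENNReal.ofReal_ne_top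

theorem one_side (hS : S_SCALE) (hM : S_ML) {N : ℕ} {p : ℝ} (hp : 1 < p) (hpN : p < N) {γ : ℝ}
    (h0 : 0 < γ) (h1 : γ < 1) (b b' : Bool) : ∃ c : ℝ, 0 < c ∧ ∀ Ω : Set (E N),
    ENNReal.ofReal c * inrad p b γ Ω ≤ inrad p b' γ Ω := by
  obtain ⟨c, hc, -, hc2⟩ := hM N p hp hpN γ γ h0 h1 h0 h1 b b'
  refine ⟨c, hc, fun Ω => ?_⟩
  unfold inrad
  simp only [ENNReal.mul_iSup]
  refine iSup_le fun r => iSup_le fun hr => iSup_le fun ⟨x, hx⟩ => ?_
  rw [cond_iff hS hp b γ x hr Ω] at hx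
  obtain ⟨y, hy⟩ := hc2 _ hx
  rw [cond_iff hS hp b' γ y hc] at hy
  have hrc : 0 < c * r := mul_pos hc hr
  have hz : cap p (closedBall (x + r • y) (c * r) \ Ω) (dom b' (x + r • y) (c * r)) ≤
      ENNReal.ofReal γ * cap p (closedBall (x + r • y) (c * r)) (dom b' (x + r • y) (c * r)) := by
    rw [cond_iff hS hp b' γ _ hrc]
    have e : {z : E N | y + c • z ∈ {z : E N | x + r • z ∈ Ω}} =
        {z : E N | x + r • y + (c * r) • z ∈ Ω} := by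
      ext z
      have e1 : x + r • (y + c • z) = x + r • y + (c * r) • z := by
        rw [smul_add, smul_smul, mul_comm r c, add_assoc]
      show x + r • (y + c • z) ∈ Ω ↔ x + r • y + (c * r) • z ∈ Ω
      rw [e1]
    rw [e] at hy
    exact hy
  rw [← ENNReal.ofReal_mul hc.le]
  exact le_iSup_of_le (c * r) (le_iSup_of_le hrc (le_iSup_of_le ⟨_, hz⟩ le_rfl))

theorem t_FIN (hS : S_SCALE) (hM : S_ML) : S_FIN := by
  intro N p hp hpN γ h0 h1
  obtain ⟨c₁, hc₁, h2⟩ := one_side hS hM hp hpN h0 h1 false true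
  obtain ⟨c₂, hc₂, h3⟩ := one_side hS hM hp hpN h0 h1 true false
  refine ⟨c₁, c₂⁻¹, hc₁, inv_pos.2 hc₂, fun Ω _ => ⟨h2 Ω, ?_⟩⟩
  have h4 := h3 Ω
  have e1 : ENNReal.ofReal c₂⁻¹ * ENNReal.ofReal c₂ = 1 := by
    rw [← ENNReal.ofReal_mul (inv_pos.2 hc₂).le, inv_mul_cancel₀ hc₂.ne', ENNReal.ofReal_one]
  calc inrad p true γ Ω = ENNReal.ofReal c₂⁻¹ * (ENNReal.ofReal c₂ * inrad p true γ Ω) := by
        rw [← mul_assoc, e1, one_mul]
    _ ≤ ENNReal.ofReal c₂⁻¹ * inrad p false γ Ω := mul_le_mul_right h4 _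

end Pool.Agent.X224.CR
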